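import Pool.Agent.Helper51K9.LI.Lv

set_option autoImplicit false

namespace Pool.Agent.Helper86K9.LI

open Polynomial Pool.Agent.Helper51K9.LI

theorem ex_ : S_EX := by
  intro L A B C _ _ _ _ _ _ _ _ _ _ j p hj hp hjp f g h hf hh
  obtain ⟨s, hs⟩ := p.exists_rightInverse_of_surjective (LinearMap.range_eq_top.2 hp)
  have hps : ∀ c, p (s c) = c := fun c => LinearMap.congr_fun hs c
  have hpj : ∀ a, p (j a) = 0 := fun a => (hjp _).2 ⟨a, rfl⟩
  let e₀ : (A × C) →ₗ[L] B := j.coprod s
  have he₀ : ∀ a c, e₀ (a, c) = j a + s c := fun a c => LinearMap.coprod_apply _ _ _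
  have hpe : ∀ x, p (e₀ x) = x.2 := by
    rintro ⟨a, c⟩
    rw [he₀, map_add, hpj, hps, zero_add]
  have hinj : Function.Injective e₀ := by
    rw [← LinearMap.ker_eq_bot, LinearMap.ker_eq_bot']
    rintro ⟨a, c⟩ h0
    have h1 : c = 0 := by
      have := hpe (a, c)
      rw [h0, map_zero] at this
      exact this.symm
    subst h1
    rw [he₀, map_zero, add_zero] at h0
    have h2 : a = 0 := hj (by rw [h0, map_zero])
    rw [h2]
    rfl
  have hsurj : Function.Surjective e₀ := by
    intro b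
    obtain ⟨a, ha⟩ := (hjp (b - s (p b))).1 (by rw [map_sub, hps, sub_self])
    exact ⟨(a, p b), by rw [he₀, ha]; abel⟩
  let e : (A × C) ≃ₗ[L] B := LinearEquiv.ofBijective e₀ ⟨hinj, hsurj⟩
  have he : ∀ x, e x = e₀ x := fun x => rfl
  have hes : ∀ b, (e.symm b).2 = p b := by
    intro b
    obtain ⟨x, rfl⟩ := e.surjective b
    rw [e.symm_apply_apply, he, hpe]
  let bA := Module.finBasis L A
  let bC := Module.finBasis L C
  let b : Module.Basis _ L B := (bA.prod bC).map e
  have hM : LinearMap.toMatrix b b g = Matrix.fromBlocks (LinearMap.toMatrix bA bA f)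
      (Matrix.of fun i k => LinearMap.toMatrix b b g (Sum.inl i) (Sum.inr k)) 0
      (LinearMap.toMatrix bC bC h) := by
    ext i k
    rcases i with i | i <;> rcases k with k | k
    · rw [Matrix.fromBlocks_apply₁₁, LinearMap.toMatrix_apply, LinearMap.toMatrix_apply]
      have h1 : g (b (Sum.inl k)) = e (f (bA k), 0) := by
        rw [he, he₀, map_zero, add_zero, ← hf]
        congr 1
        simp [b, he, he₀]
      rw [h1]
      simp [b]
    · rw [Matrix.fromBlocks_apply₁₂]
      rfl
    · rw [Matrix.fromBlocks_apply₂₁, LinearMap.toMatrix_apply]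
      have h1 : g (b (Sum.inl k)) = e (f (bA k), 0) := by
        rw [he, he₀, map_zero, add_zero, ← hf]
        congr 1
        simp [b, he, he₀]
      rw [h1]
      simp [b]
    · rw [Matrix.fromBlocks_apply₂₂, LinearMap.toMatrix_apply, LinearMap.toMatrix_apply]
      have h1 : b (Sum.inr k) = s (bC k) := by simp [b, he, he₀]
      have h2 : b.repr (g (b (Sum.inr k))) (Sum.inr i) = bC.repr ((e.symm (g (b (Sum.inr k)))).2) i := by
        simp [b]
      rw [h2, hes, h1, hh, hps]
  rw [← LinearMap.charpoly_toMatrix g b, hM, Matrix.charpoly_fromBlocks_zero₂₁,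
    LinearMap.charpoly_toMatrix, LinearMap.charpoly_toMatrix]

theorem charpoly_zero' (L C : Type) [Field L] [AddCommGroup C] [Module L C]
    [FiniteDimensional L C] : (0 : Module.End L C).charpoly = X ^ Module.finrank L C := by
  rw [← LinearMap.charpoly_toMatrix (0 : Module.End L C) (Module.finBasis L C), map_zero,
    Matrix.charpoly_zero]
  simp

theorem nil_ (hE : S_EX) : S_NIL := by
  intro L A B _ _ _ _ _ _ _ j hj f g hg hr
  have h1 := hE L A B (B ⧸ LinearMap.range j) j (LinearMap.range j).mkQ hj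
    (Submodule.mkQ_surjective _) (by
      intro b
      rw [Submodule.mkQ_apply, Submodule.Quotient.mk_eq_zero]
      rfl) f g 0 hg (by
      intro b
      rw [LinearMap.zero_apply, Submodule.mkQ_apply, Submodule.Quotient.mk_eq_zero]
      exact hr b)
  rw [h1, charpoly_zero', reverse_mul_X_pow]

theorem root_ : S_ROOT := by
  intro L V Ω _ _ _ _ _ i f Q hQ z hz
  have hz0 : z ≠ 0 := by
    rintro rfl
    rw [eval₂_at_zero, coeff_zero_reverse, (LinearMap.charpoly_monic f).leadingCoeff, map_one]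
      at hz
    exact one_ne_zero hz
  refine ⟨hz0, ?_⟩
  let : Algebra L Ω := i.toAlgebra
  have hi : algebraMap L Ω = i := rfl
  have h1 : f.charpoly.eval₂ i z⁻¹ = 0 := by
    let : Invertible (z⁻¹) := invertibleOfNonzero (inv_ne_zero hz0)
    have h2 := eval₂_reverse_eq_zero_iff i z⁻¹ f.charpoly
    rw [invOf_eq_inv, inv_inv] at h2
    exact h2.1 hz
  have h3 : (f.baseChange Ω).charpoly.IsRoot z⁻¹ := by
    rw [LinearMap.charpoly_baseChange, IsRoot, eval_map, hi]
    exact h1
  obtain ⟨x, hx⟩ := ((Module.End.hasEigenvalue_iff_isRoot_charpoly _ _).2 h3).exists_hasEigenvector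
  have h4 := Module.End.aeval_apply_of_hasEigenvector (p := Q.map (algebraMap L Ω)) hx
  have h5 : aeval (f.baseChange Ω) (Q.map (algebraMap L Ω)) = 0 := by
    rw [aeval_map_algebraMap]
    have h6 := aeval_algHom_apply (Module.End.baseChangeHom L Ω V) f Q
    rw [hQ, map_zero] at h6
    exact h6
  rw [h5, LinearMap.zero_apply] at h4
  rcases smul_eq_zero.1 h4.symm with h6 | h6
  · rw [eval_map, hi] at h6
    exact h6
  · exact absurd h6 hx.2

theorem avg_ : S_AVG := by
  intro G _ H H' hH hr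
  classical
  set K : Subgroup H := H'.subgroupOf H with hK
  have hfin : Finite (H ⧸ K) := by
    have : K.index ≠ 0 := hr
    have : K.FiniteIndex := ⟨this⟩
    exact Subgroup.finite_quotient_of_finiteIndex
  let _ : Fintype (H ⧸ K) := Fintype.ofFinite _
  let e : Fin (Fintype.card (H ⧸ K)) ≃ (H ⧸ K) := (Fintype.equivFin _).symm
  refine ⟨Fintype.card (H ⧸ K), fun a => ((e a).out : H), Fintype.card_pos, fun a => ((e a).out : H).2,
    ?_⟩
  intro L V _ _ _ _ ρ hm h1
  have hN : ((Fintype.card (H ⧸ K) : ℕ) : L) ≠ 0 := Nat.cast_ne_zero.2 Fintype.card_pos.ne'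
  set T : (H ⧸ K) → Module.End L V := fun q => ρ ((q.out : H) : G) with hT
  have hTx : ∀ x : H, ρ (x : G) = T (x : H ⧸ K) := by
    intro x
    obtain ⟨k, hk⟩ := QuotientGroup.mk_out_eq_mul K x
    show ρ (x : G) = ρ ((((x : H ⧸ K)).out : H) : G)
    have h2 : ρ (((k : H) : G)) = 1 := h1 _ k.2
    rw [hk, Subgroup.coe_mul, hm _ x.2 _ (k : H).2, h2, mul_one]
  have hsum : ∑ a, ρ (((e a).out : H) : G) = ∑ q, T q := e.sum_comp T
  have hinv : ∀ h ∈ H, ρ h * ∑ q, T q = ∑ q, T q := by
    intro h hh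
    rw [Finset.mul_sum]
    have h2 : ∀ q, ρ h * T q = T ((MulAction.toPerm (⟨h, hh⟩ : H) : Equiv.Perm (H ⧸ K)) q) := by
      intro q
      have h3 : ρ h * T q = ρ (((⟨h, hh⟩ : H) * q.out : H) : G) := by
        rw [Subgroup.coe_mul, hm _ hh _ (q.out : H).2]
      rw [h3, hTx]
      congr 1
      show (((⟨h, hh⟩ : H) * q.out : H) : H ⧸ K) = (⟨h, hh⟩ : H) • q
      conv_rhs => rw [← QuotientGroup.out_eq' q]
      rfl
    simp only [h2]
    exact Equiv.sum_comp _ T
  constructor
  · intro v h hh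
    rw [hsum, LinearMap.smul_apply, map_smul, ← Module.End.mul_apply, hinv h hh]
  · intro v hv
    rw [LinearMap.smul_apply, LinearMap.sum_apply]
    have h2 : ∀ a, ρ (((e a).out : H) : G) v = v := fun a => hv _ ((e a).out : H).2
    simp only [h2]
    rw [Finset.sum_const, Finset.card_univ, Fintype.card_fin, ← Nat.cast_smul_eq_nsmul L, smul_smul,
      inv_mul_cancel₀ hN, one_smul]

end Pool.Agent.Helper86K9.LI
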